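import Pool.Agent.K1H73.SQB.Stm

set_option autoImplicit false

/-!
# Project SQB: the large primes
-/

namespace Pool.Agent.K1H1.SQB

open Finset Pool.Agent.Y862.SQ Pool.Agent.K1H73.SQB

theorem mem_pr' {y p : ℕ} : p ∈ pr y ↔ p.Prime ∧ p ≤ y := by
  unfold pr
  rw [mem_filter, mem_Icc]
  constructor
  · rintro ⟨⟨_, h2⟩, h3⟩
    exact ⟨h3, h2⟩
  · rintro ⟨h3, h2⟩
    exact ⟨⟨h3.one_lt.le, h2⟩, h3⟩

theorem pr_filter' {w y : ℕ} (h : w ≤ y) : (pr y).filter (fun p => ¬ w < p) = pr w := by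
  ext p
  rw [mem_filter, mem_pr', mem_pr']
  constructor
  · rintro ⟨⟨h1, _⟩, h3⟩
    exact ⟨h1, by omega⟩
  · rintro ⟨h1, h2⟩
    exact ⟨⟨h1, by omega⟩, by omega⟩

theorem rG_le {k : ℕ} (q : ℕ) (a : Fin k → ℕ) (G : Fin k → Finset ℕ) (p : ℕ) :
    rG q a G p ≤ p := by
  classical
  unfold rG
  exact (card_filter_le _ _).trans (by rw [card_range])

theorem rG_large {k : ℕ} (q : ℕ) (a : Fin k → ℕ) (G : Fin k → Finset ℕ) (p : ℕ) (hp : ¬ p ∣ q) :
    rG q a G p = rH (un G) p := by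
  classical
  unfold rG rH
  congr 1
  refine filter_congr fun r _ => ?_
  unfold Qm un
  constructor
  · rintro ⟨i, h, hh, hn⟩
    refine ⟨h, mem_biUnion.2 ⟨i, mem_univ _, hh⟩, ?_⟩
    by_contra hd
    exact hn ⟨hd, fun h1 => absurd h1 hp⟩
  · rintro ⟨h, hh, hd⟩
    obtain ⟨i, _, hi⟩ := mem_biUnion.1 hh
    exact ⟨i, h, hi, fun hn => hn.1 hd⟩

theorem fac_nonneg {k : ℕ} (q : ℕ) (a : Fin k → ℕ) (G : Fin k → Finset ℕ) {p y : ℕ}
    (hp : p ∈ pr y) : 0 ≤ (1 - (rG q a G p : ℝ) / p) := by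
  have h1 : (0 : ℝ) < p := by exact_mod_cast (mem_pr'.1 hp).1.pos
  have h2 : (rG q a G p : ℝ) ≤ p := by exact_mod_cast rG_le q a G p
  rw [sub_nonneg, div_le_one h1]
  exact h2

theorem fac_le_one {k : ℕ} (q : ℕ) (a : Fin k → ℕ) (G : Fin k → Finset ℕ) (p : ℕ) :
    (1 - (rG q a G p : ℝ) / p) ≤ 1 := by
  have : (0 : ℝ) ≤ (rG q a G p : ℝ) / p := by positivity
  linarith

/-- distinct residues modulo a squarefree number are distinct modulo a prime factor -/
theorem ex_prime {q x y : ℕ} (hq : Squarefree q) (hq0 : 0 < q) (h : x % q ≠ y % q) :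
    ∃ p, p.Prime ∧ p ∣ q ∧ x % p ≠ y % p := by
  by_contra hn
  push Not at hn
  apply h
  have h1 : (∏ p ∈ q.primeFactors, p) ∣ ((y : ℤ) - x).natAbs := by
    refine Finset.prod_primes_dvd _ (fun p hp => ?_) fun p hp => ?_
    · exact Nat.prime_iff.1 (Nat.prime_of_mem_primeFactors hp)
    · have := hn p (Nat.prime_of_mem_primeFactors hp) (Nat.dvd_of_mem_primeFactors hp)
      exact Int.natCast_dvd.1 ((Nat.modEq_iff_dvd).1 this)
  rw [Nat.prod_primeFactors_of_squarefree hq] at h1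
  exact (Nat.modEq_iff_dvd).2 (Int.natCast_dvd.2 h1)

theorem t_SPL : S_SPL := by
  classical
  intro k q w y a G hq hq0 hqw hwy
  refine ⟨?_, ?_, ?_, ?_⟩
  · unfold DG VT
    rw [← prod_filter_mul_prod_filter_not (pr y) (fun p => w < p), pr_filter' hwy, mul_comm]
    congr 1
    refine prod_congr rfl fun p hp => ?_
    rw [mem_filter] at hp
    rw [rG_large q a G p (fun hd => by have := Nat.le_of_dvd hq0 hd; omega)]
  · exact prod_nonneg fun p hp => fac_nonneg q a G hp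
  · exact prod_le_one (fun p hp => fac_nonneg q a G hp) fun p _ => fac_le_one q a G p
  · intro i j hij hnd
    rw [Finset.not_disjoint_iff] at hnd
    obtain ⟨h, hi, hj⟩ := hnd
    obtain ⟨p, hp, hpq, hpa⟩ := ex_prime hq hq0 hij
    have hpw : p ∈ pr w := mem_pr'.2 ⟨hp, (Nat.le_of_dvd hq0 hpq).trans hqw⟩
    unfold DG
    refine prod_eq_zero hpw ?_
    have hr : rG q a G p = p := by
      unfold rG
      rw [filter_true_of_mem, card_range]
      intro r _
      by_cases hc : (r ^ 2 + h) % p = a i % p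
      · refine ⟨j, h, hj, fun hn => ?_⟩
        exact hpa (hc.symm.trans (hn.2 hpq))
      · exact ⟨i, h, hi, fun hn => hc (hn.2 hpq)⟩
    rw [hr, div_self (by exact_mod_cast hp.pos.ne'), sub_self]

end Pool.Agent.K1H1.SQB
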